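import Pool.Agent.Helper37.DG.Stmts

set_option autoImplicit false

/-!
Module LOW of the project DG (MP_e500b6_co).
-/

namespace Pool.Agent.Helper37.DG

open Finset
open scoped Classical
open Pool.Agent.Helper17.SO (PP LL)

/-- the blocks -/
noncomputable def low_B (y K m : ℕ) : Finset ℕ := P1 (y ^ (2 ^ (K - 1 - m))) (y ^ (2 ^ (K - m)))

theorem low_mem_P1 {u w p : ℕ} : p ∈ P1 u w ↔ (u < p ∧ p ≤ w) ∧ p.Prime ∧ p % 4 = 1 := by
  unfold P1 PP
  rw [mem_filter, mem_filter, mem_Ioc, and_assoc]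

theorem low_un {y : ℕ} (hy : 2 ≤ y) (K : ℕ) : un K (low_B y K) = P1 y (y ^ (2 ^ K)) := by
  ext p
  unfold un low_B
  rw [mem_biUnion, low_mem_P1]
  constructor
  · rintro ⟨m, hm, hp⟩
    rw [low_mem_P1] at hp
    rw [mem_range] at hm
    refine ⟨⟨lt_of_le_of_lt ?_ hp.1.1, hp.1.2.trans ?_⟩, hp.2⟩
    · exact Nat.le_self_pow (by positivity) y
    · exact Nat.pow_le_pow_right (by omega) (Nat.pow_le_pow_right (by norm_num) (by omega))
  · rintro ⟨⟨h1, h2⟩, h3⟩
    have hex : ∃ i, p ≤ y ^ (2 ^ i) := ⟨K, h2⟩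
    set i := Nat.find hex with hi
    have hi1 : p ≤ y ^ (2 ^ i) := Nat.find_spec hex
    have hi2 : i ≤ K := Nat.find_min' hex h2
    have hi0 : 1 ≤ i := by
      by_contra h
      have h0 : i = 0 := by omega
      rw [h0] at hi1
      simp at hi1
      omega
    refine ⟨K - i, mem_range.2 (by omega), ?_⟩
    rw [low_mem_P1]
    have e1 : K - (K - i) = i := by omega
    have e2 : K - 1 - (K - i) = i - 1 := by omega
    rw [e1, e2]
    refine ⟨⟨?_, hi1⟩, h3⟩
    by_contra h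
    have := Nat.find_min' hex (not_lt.1 h)
    omega

theorem low_dsj {y : ℕ} (hy : 2 ≤ y) (K : ℕ) : Dsj K (low_B y K) := by
  have key : ∀ m < K, ∀ m' < K, m < m' → Disjoint (low_B y K m) (low_B y K m') := by
    intro m _ m' _ hmm
    rw [disjoint_left]
    intro p hp hp'
    unfold low_B at hp hp'
    rw [low_mem_P1] at hp hp'
    have h1 : y ^ (2 ^ (K - m')) ≤ y ^ (2 ^ (K - 1 - m)) :=
      Nat.pow_le_pow_right (by omega) (Nat.pow_le_pow_right (by norm_num) (by omega))
    omega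
  intro m hm m' hm' hne
  rcases lt_or_gt_of_ne hne with h | h
  · exact key m hm m' hm' h
  · exact (key m' hm' m hm h).symm

theorem low_sum {CM : ℝ} (hM : ∀ u w : ℕ, 2 ≤ u → u ≤ w →
    |∑ p ∈ PP u w, 1 / (p : ℝ) - LL u w| ≤ CM) {y : ℕ} (hy : 2 ≤ y) (K m : ℕ) (hm : m < K) :
    ∑ p ∈ low_B y K m, 1 / (p : ℝ) ≤ Real.log 2 + CM := by
  set w := y ^ (2 ^ (K - 1 - m)) with hw
  have hw2 : 2 ≤ w := hy.trans (Nat.le_self_pow (by positivity) y)
  have hww : y ^ (2 ^ (K - m)) = w ^ 2 := by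
    rw [hw, ← pow_mul]
    congr 1
    rw [← pow_succ]
    congr 1
    omega
  have h1 : ∑ p ∈ low_B y K m, 1 / (p : ℝ) ≤ ∑ p ∈ PP w (w ^ 2), 1 / (p : ℝ) := by
    unfold low_B
    rw [hww, ← hw]
    unfold P1
    exact sum_le_sum_of_subset_of_nonneg (filter_subset _ _) fun p _ _ => by positivity
  have h2 := hM w (w ^ 2) hw2 (Nat.le_self_pow (by norm_num) w)
  have h3 : LL w (w ^ 2) = Real.log 2 := by
    unfold LL
    have h4 : (0 : ℝ) < Real.log w := Real.log_pos (by exact_mod_cast hw2)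
    push_cast
    rw [Real.log_pow]
    push_cast
    rw [mul_div_assoc, div_self h4.ne', mul_one]
  rw [h3, abs_le] at h2
  linarith [h2.2]

theorem low_supp (K : ℕ) (B : ℕ → Finset ℕ) (β : ℕ) (T : Finset ℕ) (h : Lam K B β T ≠ 0) :
    ∀ m < K, (T ∩ B m).card ≤ 2 * (β + m) + 1 := by
  intro m0 hm0
  by_contra hc
  push Not at hc
  apply h
  have h1 : al (β + m0) (T ∩ B m0) = 0 := by
    unfold al
    rw [if_neg (by omega)]
  have h2 : be (β + m0) (T ∩ B m0) = 0 := by
    unfold be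
    rw [if_neg (by omega)]
  unfold Lam
  rw [prod_eq_zero (mem_range.2 hm0) h1, sum_eq_zero, sub_zero]
  intro m hm
  by_cases hmm : m = m0
  · rw [hmm, h2, zero_mul]
  · rw [prod_eq_zero (mem_erase.2 ⟨Ne.symm hmm, mem_range.2 hm0⟩) h1, mul_zero]

theorem low_exp : ∀ K β : ℕ, ∑ m ∈ range K, 2 ^ (K - m) * (2 * (β + m) + 1)
    ≤ 2 ^ K * (4 * β + 6) := by
  intro K
  induction K with
  | zero =>
    intro β
    simp
  | succ K ih =>
    intro β
    rw [sum_range_succ']
    have h1 := ih (β + 1)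
    have h2 : ∑ m ∈ range K, 2 ^ (K + 1 - (m + 1)) * (2 * (β + (m + 1)) + 1)
        = ∑ m ∈ range K, 2 ^ (K - m) * (2 * (β + 1 + m) + 1) := by
      refine sum_congr rfl fun m _ => ?_
      rw [Nat.add_sub_add_right]
      ring
    rw [h2]
    have h3 : 2 ^ (K + 1) * (4 * β + 6)
        = 2 ^ K * (4 * (β + 1) + 6) + 2 ^ (K + 1 - 0) * (2 * (β + 0) + 1) := by
      rw [Nat.sub_zero, pow_succ]
      ring
    rw [h3]
    exact Nat.add_le_add_right h1 _

theorem low_pr {y : ℕ} (hy : 2 ≤ y) (K β : ℕ) (T : Finset ℕ) (hT : T ⊆ un K (low_B y K))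
    (h : ∀ m < K, (T ∩ low_B y K m).card ≤ 2 * (β + m) + 1) :
    pr T ≤ (y ^ (2 ^ K)) ^ (4 * β + 6) := by
  have h1 : T = (range K).biUnion (fun m => T ∩ low_B y K m) := by
    rw [← inter_biUnion]
    exact (inter_eq_left.2 hT).symm
  have h2 : pr T = ∏ m ∈ range K, pr (T ∩ low_B y K m) := by
    conv_lhs => rw [h1]
    unfold pr
    rw [prod_biUnion]
    intro m hm m' hm' hne
    exact (low_dsj hy K m (mem_range.1 hm) m' (mem_range.1 hm') hne).mono
      inter_subset_right inter_subset_right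
  have h3 : ∀ m ∈ range K, pr (T ∩ low_B y K m) ≤ (y ^ (2 ^ (K - m))) ^ (2 * (β + m) + 1) := by
    intro m hm
    unfold pr
    have h4 : ∏ p ∈ T ∩ low_B y K m, p ≤ ∏ p ∈ T ∩ low_B y K m, y ^ (2 ^ (K - m)) := by
      apply prod_le_prod'
      intro p hp
      have := (mem_inter.1 hp).2
      unfold low_B at this
      rw [low_mem_P1] at this
      exact this.1.2
    rw [prod_const] at h4
    exact h4.trans (Nat.pow_le_pow_right (Nat.pow_pos (by omega)) (h m (mem_range.1 hm)))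
  rw [h2]
  refine (prod_le_prod' h3).trans ?_
  have h5 : ∏ m ∈ range K, (y ^ (2 ^ (K - m))) ^ (2 * (β + m) + 1)
      = y ^ (∑ m ∈ range K, 2 ^ (K - m) * (2 * (β + m) + 1)) := by
    rw [← prod_pow_eq_pow_sum]
    exact prod_congr rfl fun m _ => (pow_mul _ _ _).symm
  rw [h5, ← pow_mul]
  exact Nat.pow_le_pow_right (by omega) (low_exp K β)

/-- exchanging the sums -/
theorem low_swap (j : ℕ → ℤ) (P : Finset (ℤ × ℤ)) (A : Finset ℕ) (L : Finset ℕ → ℝ)
    (E : Finset ℕ → ℝ) (hpos : ∀ T ∈ A.powerset, (0 : ℝ) < pr T)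
    (hL : ∀ W ⊆ A, ∑ T ∈ W.powerset, L T ≤ if W = ∅ then 1 else 0)
    (hE : ∀ T ∈ A.powerset, (pr T : ℝ) *
      ((P ×ˢ P).filter (fun a => ∀ p ∈ T, hit j p (a.1 - a.2))).card = ∑ U ∈ T.powerset, E U) :
    ∑ U ∈ A.powerset, E U * ∑ T ∈ A.powerset.filter (fun T => U ⊆ T), L T / pr T ≤
      ((P ×ˢ P).filter (fun a => Free j A (a.1 - a.2))).card := by
  have h1 : ∑ U ∈ A.powerset, E U * ∑ T ∈ A.powerset.filter (fun T => U ⊆ T), L T / pr T
      = ∑ T ∈ A.powerset, L T * ((P ×ˢ P).filter (fun a => ∀ p ∈ T, hit j p (a.1 - a.2))).card := by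
    have h2 : ∀ U ∈ A.powerset, E U * ∑ T ∈ A.powerset.filter (fun T => U ⊆ T), L T / pr T
        = ∑ T ∈ A.powerset, if U ⊆ T then L T / pr T * E U else 0 := by
      intro U _
      rw [sum_filter, mul_sum]
      refine sum_congr rfl fun T _ => ?_
      split_ifs
      · ring
      · ring
    rw [sum_congr rfl h2, sum_comm]
    refine sum_congr rfl fun T hT => ?_
    have h3 : ∑ U ∈ A.powerset, (if U ⊆ T then L T / pr T * E U else 0)
        = ∑ U ∈ T.powerset, L T / pr T * E U := by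
      rw [← sum_filter]
      refine sum_congr ?_ fun _ _ => rfl
      ext U
      rw [mem_filter, mem_powerset, mem_powerset]
      exact ⟨fun h => h.2, fun h => ⟨h.trans (mem_powerset.1 hT), h⟩⟩
    rw [h3, ← mul_sum, ← hE T hT]
    have := (hpos T hT).ne'
    field_simp
  rw [h1]
  have h4 : ∀ T ∈ A.powerset,
      L T * (((P ×ˢ P).filter (fun a => ∀ p ∈ T, hit j p (a.1 - a.2))).card : ℝ)
      = ∑ a ∈ P ×ˢ P, if ∀ p ∈ T, hit j p (a.1 - a.2) then L T else 0 := by
    intro T _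
    rw [← sum_filter, sum_const, nsmul_eq_mul, mul_comm]
  rw [sum_congr rfl h4, sum_comm]
  have h5 : (((P ×ˢ P).filter (fun a => Free j A (a.1 - a.2))).card : ℝ)
      = ∑ a ∈ P ×ˢ P, if Free j A (a.1 - a.2) then (1 : ℝ) else 0 := by
    rw [← sum_filter, sum_const, nsmul_eq_mul, mul_one]
  rw [h5]
  refine sum_le_sum fun a _ => ?_
  have h6 := hL (A.filter (fun p => hit j p (a.1 - a.2))) (filter_subset _ _)
  have h7 : ∑ T ∈ (A.filter (fun p => hit j p (a.1 - a.2))).powerset, L T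
      = ∑ T ∈ A.powerset, if ∀ p ∈ T, hit j p (a.1 - a.2) then L T else 0 := by
    rw [← sum_filter]
    refine sum_congr ?_ fun _ _ => rfl
    ext T
    rw [mem_filter, mem_powerset, mem_powerset]
    constructor
    · intro h
      exact ⟨h.trans (filter_subset _ _), fun p hp => (mem_filter.1 (h hp)).2⟩
    · intro h p hp
      exact mem_filter.2 ⟨h.1 hp, h.2 p hp⟩
  rw [← h7]
  refine h6.trans (le_of_eq ?_)
  by_cases hF : Free j A (a.1 - a.2)
  · rw [if_pos hF, if_pos]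
    rw [filter_eq_empty_iff]
    exact fun p hp => hF p hp
  · rw [if_neg hF, if_neg]
    rw [filter_eq_empty_iff]
    exact fun h => hF fun p hp => h hp

theorem st_LOW (h1 : ST_LSD) (h2 : ST_SV1) (h3 : ST_SV3) (h4 : Pool.Agent.Helper17.SO.ST_MER) :
    ST_LOW := by
  obtain ⟨CM, hCM, hM⟩ := h4
  obtain ⟨C1, hC1, hLSD⟩ := h1
  have hS : 0 < Real.log 2 + CM + 1 := by
    have := Real.log_nonneg (show (1 : ℝ) ≤ 2 by norm_num)
    linarith
  obtain ⟨β, C3, hC3, hSV⟩ := h3 (Real.log 2 + CM + 1) hS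
  have hC3r : (2 : ℝ) ≤ C3 := by exact_mod_cast hC3
  refine ⟨8 * β + 12, max C3 2, 1 / (2 * C3), 4 * C3 ^ 2 * C1, by omega, by positivity,
    by positivity, ?_⟩
  intro j N M P y K hM1 hN1 hP hy hz hd
  have hy2 : 2 ≤ y := (le_max_right _ _).trans hy
  have hyC : C3 ≤ y := (le_max_left _ _).trans hy
  set z := y ^ (2 ^ K) with hzdef
  set A := P1 y z with hA
  have hun := low_un hy2 K
  rw [← hzdef, ← hA] at hun
  have hAp : ∀ p ∈ A, p.Prime ∧ y < p := by
    intro p hp
    rw [hA, low_mem_P1] at hp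
    exact ⟨hp.2.1, hp.1.1⟩
  obtain ⟨E, hE0, hEn, hE, hEQ⟩ := hLSD j N M P A hN1 hM1 hP (fun p hp => (hAp p hp).1)
  obtain ⟨hs1, hs2⟩ := hSV K (low_B y K) (low_dsj hy2 K) (by
      intro m hm p hp
      have hp' : p ∈ un K (low_B y K) := by
        unfold un
        exact mem_biUnion.2 ⟨m, mem_range.2 hm, hp⟩
      rw [hun] at hp'
      have := (hAp p hp').2
      omega) (by
      intro m hm
      have := low_sum hM hy2 K m hm
      linarith)
  have hsv1 := h2 K (low_B y K) β (low_dsj hy2 K)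
  rw [hun] at hs1 hs2 hsv1
  have hposr : ∀ T ∈ A.powerset, (0 : ℝ) < pr T := by
    intro T hT
    unfold pr
    push_cast
    exact prod_pos fun p hp => by
      have := (hAp p (mem_powerset.1 hT hp)).1.pos
      exact_mod_cast this
  have hswap := low_swap j P A (Lam K (low_B y K) β) E hposr hsv1 hE
  refine le_trans ?_ hswap
  set c : Finset ℕ → ℝ := fun U => ∑ T ∈ A.powerset.filter (fun T => U ⊆ T),
    Lam K (low_B y K) β T / pr T with hc
  set Q := z ^ (4 * β + 6) with hQ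
  have hypos : (0 : ℝ) < y := by
    have : 0 < y := by omega
    exact_mod_cast this
  have hsy : 0 < Real.sqrt y := Real.sqrt_pos.2 hypos
  have hsw : 0 < sw A := Real.exp_pos _
  -- large `U`
  have hbig : ∀ U ∈ A.powerset, Q < pr U → c U = 0 := by
    intro U hU hUQ
    rw [hc]
    apply sum_eq_zero
    intro T hT
    rw [mem_filter, mem_powerset] at hT
    by_contra hne
    have hL : Lam K (low_B y K) β T ≠ 0 := by
      intro h
      rw [h, zero_div] at hne
      exact hne rfl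
    have h5 := low_pr hy2 K β T (by rw [hun]; exact hT.1) (low_supp K _ β T hL)
    rw [← hzdef, ← hQ] at h5
    have h6 : pr U ≤ pr T := by
      unfold pr
      apply prod_le_prod_of_subset_of_one_le' hT.2
      intro p hp _
      exact (hAp p (hT.1 hp)).1.one_lt.le
    omega
  have hpru : ∀ U ∈ A.powerset, U ≠ ∅ → (y : ℝ) ≤ pr U := by
    intro U hU hne
    obtain ⟨p, hp⟩ := nonempty_iff_ne_empty.2 hne
    have h5 : p ≤ pr U := by
      unfold pr
      exact single_le_prod' (f := fun p => p)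
        (fun q hq => (hAp q (mem_powerset.1 hU hq)).1.one_lt.le) hp
    have h6 := (hAp p (mem_powerset.1 hU hp)).2
    exact_mod_cast (h6.le.trans h5)
  have hterm : ∀ U ∈ A.powerset, (if U = ∅ then E ∅ * c ∅ else 0)
      - (if pr U ≤ Q then E U else 0) * (C3 * sw A / Real.sqrt y) ≤ E U * c U := by
    intro U hU
    have hEU := hEn U hU
    have hpos2 : 0 ≤ C3 * sw A / Real.sqrt y := by positivity
    by_cases hU0 : U = ∅
    · rw [if_pos hU0, hU0]
      have : 0 ≤ (if pr ∅ ≤ Q then E ∅ else 0) * (C3 * sw A / Real.sqrt y) := by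
        apply mul_nonneg _ hpos2
        split_ifs
        · rw [hE0]
          positivity
        · exact le_rfl
      linarith
    · rw [if_neg hU0]
      by_cases hUQ : pr U ≤ Q
      · rw [if_pos hUQ]
        have h5 := hs2 U (mem_powerset.1 hU)
        have h6 : C3 * sw A / Real.sqrt (pr U) ≤ C3 * sw A / Real.sqrt y := by
          apply div_le_div_of_nonneg_left (by positivity) hsy
          exact Real.sqrt_le_sqrt (hpru U hU hU0)
        have h7 := (abs_le.1 (h5.trans h6)).1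
        have h8 : E U * (-(C3 * sw A / Real.sqrt y)) ≤ E U * c U :=
          mul_le_mul_of_nonneg_left h7 hEU
        linarith
      · rw [if_neg hUQ, hbig U hU (not_le.1 hUQ)]
        simp
  have hsumm := sum_le_sum hterm
  rw [sum_sub_distrib, ← sum_mul] at hsumm
  have e1 : ∑ U ∈ A.powerset, (if U = ∅ then E ∅ * c ∅ else 0) = E ∅ * c ∅ := by
    rw [sum_ite_eq' A.powerset ∅ (fun _ => E ∅ * c ∅)]
    rw [if_pos (empty_mem_powerset A)]
  have hQ1 : 1 ≤ Q := by
    rw [hQ, hzdef]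
    exact Nat.one_le_iff_ne_zero.2 (by positivity)
  have e2 : ∑ U ∈ A.powerset, (if pr U ≤ Q then E U else 0) ≤
      C1 * (M * ((N : ℝ) + (Q : ℝ) ^ 2)) * P.card := by
    rw [← sum_filter]
    exact hEQ Q hQ1
  have hQN : (Q : ℝ) ^ 2 ≤ N := by
    have : Q ^ 2 ≤ N := by
      rw [hQ, ← pow_mul]
      have e : (4 * β + 6) * 2 = 8 * β + 12 := by ring
      rw [e]
      exact hz
    exact_mod_cast this
  rw [e1, hE0] at hsumm
  have e3 : sw A ≤ C3 * c ∅ := by
    refine hs1.trans (le_of_eq ?_)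
    rw [hc]
    congr 1
    refine sum_congr ?_ fun _ _ => rfl
    ext T
    rw [mem_filter]
    exact ⟨fun h => ⟨h, empty_subset T⟩, fun h => h.1⟩
  refine le_trans ?_ hsumm
  have e4 : (∑ U ∈ A.powerset, (if pr U ≤ Q then E U else 0)) * (C3 * sw A / Real.sqrt y) ≤
      (C1 * (M * (2 * N)) * P.card) * (C3 * sw A / Real.sqrt y) := by
    apply mul_le_mul_of_nonneg_right (e2.trans _) (by positivity)
    apply mul_le_mul_of_nonneg_right _ (by positivity)
    apply mul_le_mul_of_nonneg_left _ hC1.le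
    apply mul_le_mul_of_nonneg_left _ (by positivity)
    linarith
  have hC3pos : (0 : ℝ) < C3 := by linarith
  have e5 : (P.card : ℝ) ^ 2 * (sw A / C3) ≤ (P.card : ℝ) ^ 2 * c ∅ := by
    apply mul_le_mul_of_nonneg_left _ (by positivity)
    rw [div_le_iff₀ hC3pos]
    linarith
  have e6 : (C1 * (M * (2 * N)) * P.card) * (C3 * sw A / Real.sqrt y) ≤
      1 / (2 * C3) * sw A * (P.card : ℝ) ^ 2 := by
    have h5 : (C1 * (M * (2 * N)) * P.card) * (C3 * sw A / Real.sqrt y)
        = (4 * C3 ^ 2 * C1 * (M * N)) * (P.card * sw A / (2 * C3 * Real.sqrt y)) := by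
      field_simp
      ring
    rw [h5]
    refine (mul_le_mul_of_nonneg_right hd (by positivity)).trans (le_of_eq ?_)
    field_simp
  have e7 : 1 / (2 * C3) * sw A * (P.card : ℝ) ^ 2
      = (P.card : ℝ) ^ 2 * (sw A / C3) - 1 / (2 * C3) * sw A * (P.card : ℝ) ^ 2 := by
    field_simp
    ring
  linarith

end Pool.Agent.Helper37.DG
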